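import Pool.Agent.MP_db5b97_nt.H85.Spec

/-! The Dedekind zeta function near `1` and Euler products over ideals. -/

namespace Pool.Agent.MP_db5b97_nt.H72

open NumberField IsDedekindDomain Filter Topology H85

variable {k : Type} [Field k] [NumberField k]

theorem nz_nonneg (I : Ideal (𝓞 k)) (s : ℝ) : 0 ≤ nz I s := Real.rpow_nonneg (by positivity) _

theorem nz_mul (I J : Ideal (𝓞 k)) (s : ℝ) : nz (I * J) s = nz I s * nz J s := by
  simp only [nz, map_mul, Nat.cast_mul]
  exact Real.mul_rpow (by positivity) (by positivity)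

theorem nz_top (s : ℝ) : nz (⊤ : Ideal (𝓞 k)) s = 1 := by simp [nz]

theorem nz_bot {s : ℝ} (hs : 1 < s) : nz (⊥ : Ideal (𝓞 k)) s = 0 := by
  simp only [nz, Ideal.absNorm_bot, Nat.cast_zero]
  exact Real.zero_rpow (by linarith)

theorem two_le_norm (v : Sp k) : (2 : ℝ) ≤ Ideal.absNorm v.asIdeal := by
  exact_mod_cast NumberField.HeightOneSpectrum.one_lt_absNorm v

theorem nz_le_one (v : Sp k) {s : ℝ} (hs : 1 < s) : nz v.asIdeal s ≤ nz v.asIdeal 1 :=
  Real.rpow_le_rpow_of_exponent_le (by linarith [two_le_norm v]) (by linarith)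

theorem nz_le_half (v : Sp k) {s : ℝ} (hs : 1 < s) : nz v.asIdeal s ≤ 1 / 2 := by
  refine (nz_le_one v hs).trans ?_
  rw [nz, Real.rpow_neg_one, one_div]
  exact inv_anti₀ two_pos (two_le_norm v)

theorem nz_sq_le (v : Sp k) {s : ℝ} (hs : 1 < s) : nz v.asIdeal s ^ 2 ≤ nz v.asIdeal 2 := by
  refine (pow_le_pow_left₀ (nz_nonneg _ _) (nz_le_one v hs) 2).trans (le_of_eq ?_)
  rw [nz, nz, ← Real.rpow_natCast, ← Real.rpow_mul (by positivity)]
  norm_num

variable (k) in
/-- number of ideals of a given norm -/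
noncomputable def an (n : ℕ) : ℕ := Nat.card {I : Ideal (𝓞 k) // Ideal.absNorm I = n}

theorem an_tendsto : Tendsto (fun n : ℕ => (∑ j ∈ Finset.Icc 1 n, (an k j : ℝ)) / (n : ℝ)) atTop
    (𝓝 (dedekindZeta_residue k)) := by
  refine ((Ideal.tendsto_norm_le_div_atTop₀ k).comp tendsto_natCast_atTop_atTop).congr fun n ↦ ?_
  simp only [Function.comp_apply, Nat.cast_le, ← Nat.cast_sum, an]
  congr
  rw [← add_left_inj 1, ← Ideal.card_norm_le_eq_card_norm_le_add_one,
    show Finset.Icc 1 n = Finset.Ioc 0 n from Finset.Icc_succ_left_eq_Ioc _ _,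
    show 1 = Nat.card {I : Ideal (𝓞 k) // Ideal.absNorm I = 0} by
      simp [Ideal.absNorm_eq_zero_iff],
    Finset.sum_Ioc_add_eq_sum_Icc (n.zero_le),
    ← Finset.card_preimage_eq_sum_card_image_eq
      (fun j _ ↦ Ideal.finite_setOfPred_absNorm_eq j)]
  simp [Set.coe_eq_subtype]

theorem an_summable {s : ℝ} (hs : 1 < s) : LSeriesSummable (fun n => ((an k n : ℝ) : ℂ)) s := by
  refine LSeriesSummable_of_sum_norm_bigO_and_nonneg (r := 1) ?_ (fun _ => Nat.cast_nonneg _)
    zero_le_one (by simpa using hs)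
  simpa using Asymptotics.isBigO_atTop_natCast_rpow_of_tendsto_div_rpow (a := dedekindZeta_residue k)
    (r := 1) (by simpa using an_tendsto)

theorem term_eq {s : ℝ} (hs : 1 < s) (n : ℕ) :
    LSeries.term (fun n => ((an k n : ℝ) : ℂ)) s n = ((an k n * (n : ℝ) ^ (-s) : ℝ) : ℂ) := by
  rcases eq_or_ne n 0 with rfl | hn
  · simp [Real.zero_rpow (show -s ≠ 0 by linarith)]
  · rw [LSeries.term_of_ne_zero hn, Real.rpow_neg (by positivity)]
    push_cast
    rw [Complex.ofReal_cpow (by positivity), div_eq_mul_inv]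
    simp

theorem zeta_sum {s : ℝ} (hs : 1 < s) : (Summable fun I : Ideal (𝓞 k) => nz I s) ∧
    ((∑' I : Ideal (𝓞 k), nz I s : ℝ) : ℂ) = dedekindZeta k s := by
  have h1 : Summable fun n : ℕ => (an k n * (n : ℝ) ^ (-s) : ℝ) := by
    have := an_summable (k := k) hs
    rw [LSeriesSummable, funext (term_eq hs)] at this
    exact Complex.summable_ofReal.1 this
  have hf : ∀ n : ℕ, Finite {I : Ideal (𝓞 k) // Ideal.absNorm I = n} := fun n =>
    (Ideal.finite_setOfPred_absNorm_eq n).to_subtype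
  have h2 : ∀ n : ℕ, ∑' I : {I : Ideal (𝓞 k) // Ideal.absNorm I = n}, nz I.1 s =
      an k n * (n : ℝ) ^ (-s) := by
    intro n
    have : ∀ I : {I : Ideal (𝓞 k) // Ideal.absNorm I = n}, nz I.1 s = (n : ℝ) ^ (-s) :=
      fun I => by rw [nz, I.2]
    rw [tsum_congr this, tsum_const, an, nsmul_eq_mul]
  have h3 : Summable fun x : (Σ n : ℕ, {I : Ideal (𝓞 k) // Ideal.absNorm I = n}) => nz x.2.1 s :=
    (summable_sigma_of_nonneg fun _ => nz_nonneg _ _).2
      ⟨fun n => Summable.of_finite, by simpa only [h2] using h1⟩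
  let e := Equiv.sigmaFiberEquiv (fun I : Ideal (𝓞 k) => Ideal.absNorm I)
  refine ⟨e.summable_iff.1 h3, ?_⟩
  rw [← e.tsum_eq]
  erw [h3.tsum_sigma]
  simp only [h2]
  rw [Complex.ofReal_tsum, ← funext (term_eq hs)]
  simp [dedekindZeta, LSeries, an]

theorem zeta_tendsto : Tendsto (fun s : ℝ => (s - 1) * ∑' I : Ideal (𝓞 k), nz I s) (𝓝[>] 1)
    (𝓝 (dedekindZeta_residue k)) := by
  rw [← tendsto_ofReal_iff]
  refine (tendsto_sub_one_mul_dedekindZeta_nhdsGT k).congr' ?_
  filter_upwards [self_mem_nhdsWithin] with s hs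
  rw [← (zeta_sum hs).2]
  push_cast
  rfl

theorem zeta_le : ∃ C : ℝ, 0 < C ∧
    ∀ᶠ s in 𝓝[>] (1 : ℝ), (s - 1) * ∑' I : Ideal (𝓞 k), nz I s ≤ C :=
  ⟨dedekindZeta_residue k + 1, by linarith [dedekindZeta_residue_pos k],
    zeta_tendsto.eventually_le_const (by linarith)⟩

omit [NumberField k] in
theorem asIdeal_inj : Function.Injective fun v : Sp k => v.asIdeal :=
  fun _ _ h => HeightOneSpectrum.ext h

open Classical in
/-- sums over multiples of an ideal -/
theorem tsum_dvd {c : Ideal (𝓞 k)} (hc : c ≠ ⊥) (g : Ideal (𝓞 k) → ℂ) :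
    ∑' J, (if c ∣ J then g J else 0) = ∑' I, g (c * I) := by
  rw [← (mul_right_injective₀ hc).tsum_eq]
  · simp
  · intro J hJ
    by_cases h : c ∣ J
    · obtain ⟨I, rfl⟩ := h
      exact ⟨I, rfl⟩
    · simp [h] at hJ

/-- the Euler product, logarithmic form -/
theorem euler (f : Ideal (𝓞 k) → ℂ) (h1 : f ⊤ = 1) (h0 : f ⊥ = 0)
    (hm : ∀ I J, f (I * J) = f I * f J) (hs : Summable fun I => ‖f I‖)
    (hv : ∀ v : Sp k, ‖f v.asIdeal‖ ≤ 1 / 2) :
    ∑' I, f I ≠ 0 ∧ |Real.log ‖∑' I, f I‖ - (∑' v : Sp k, f v.asIdeal).re| ≤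
      ∑' v : Sp k, ‖f v.asIdeal‖ ^ 2 := by
  classical
  let g : Finset (Sp k) → Ideal (𝓞 k) → ℂ := fun S I => if ∀ w ∈ S, ¬ w.asIdeal ∣ I then f I else 0
  have hg : ∀ S I, ‖g S I‖ ≤ ‖f I‖ := fun S I => by
    simp only [g]
    split_ifs <;> simp
  have hgs : ∀ S, Summable (g S) := fun S => hs.of_norm_bounded (hg S)
  have step : ∀ (S : Finset (Sp k)) (v : Sp k), v ∉ S →
      ∑' I, g (insert v S) I = (∑' I, g S I) * (1 + -f v.asIdeal) := by
    intro S v hvS
    have e1 : ∀ I, g (insert v S) I = g S I - if v.asIdeal ∣ I then g S I else 0 := by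
      intro I
      simp only [g, Finset.forall_mem_insert]
      by_cases h : v.asIdeal ∣ I <;> simp [h]
    have e2 : ∀ I, g S (v.asIdeal * I) = f v.asIdeal * g S I := by
      intro I
      have : (∀ w ∈ S, ¬ w.asIdeal ∣ v.asIdeal * I) ↔ ∀ w ∈ S, ¬ w.asIdeal ∣ I := by
        refine forall₂_congr fun w hw => not_congr ?_
        rw [w.prime.dvd_mul]
        refine or_iff_right fun h => hvS ?_
        have : w = v := HeightOneSpectrum.ext
          (associated_iff_eq.1 (w.prime.associated_of_dvd v.prime h))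
        rwa [← this]
      simp only [g, this, hm]
      split_ifs <;> simp
    rw [tsum_congr e1, (hgs S).tsum_sub, tsum_dvd v.ne_bot, tsum_congr e2, tsum_mul_left]
    · ring
    · refine hs.of_norm_bounded fun I => ?_
      split_ifs
      · exact hg S I
      · simp
  have prod : ∀ S : Finset (Sp k), ∑' I, g S I = (∑' I, f I) * ∏ v ∈ S, (1 + -f v.asIdeal) := by
    intro S
    induction S using Finset.induction_on with
    | empty => simp [g]
    | insert v S h ih => rw [step S v h, ih, Finset.prod_insert h]; ring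
  have lim : Tendsto (fun S => ∑' I, g S I) atTop (𝓝 1) := by
    have : (1 : ℂ) = ∑' I : Ideal (𝓞 k), if I = ⊤ then 1 else 0 := by simp
    rw [this]
    refine tendsto_tsum_of_dominated_convergence hs (fun I => ?_) (Eventually.of_forall hg)
    by_cases hI : I = ⊤
    · subst hI
      refine tendsto_const_nhds.congr fun S => ?_
      rw [if_pos rfl]
      simp only [g]
      rw [if_pos, h1]
      exact fun w _ h => w.isPrime.ne_top (top_le_iff.1 (Ideal.le_of_dvd h))
    · rw [if_neg hI]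
      by_cases hI0 : I = ⊥
      · subst hI0
        refine tendsto_const_nhds.congr fun S => ?_
        simp [g, h0]
      · obtain ⟨P, hP, hIP⟩ := Ideal.exists_le_maximal I hI
        let w : Sp k := ⟨P, hP.isPrime, fun h => hI0 (le_bot_iff.1 (h ▸ hIP))⟩
        refine tendsto_const_nhds.congr' ?_
        filter_upwards [eventually_ge_atTop {w}] with S hS
        simp only [g]
        rw [if_neg]
        exact fun h => h w (hS (Finset.mem_singleton_self w)) (Ideal.dvd_iff_le.2 hIP)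
  have hsv : Summable fun v : Sp k => ‖f v.asIdeal‖ := hs.comp_injective asIdeal_inj
  have hfv : Summable fun v : Sp k => f v.asIdeal := hsv.of_norm
  have hl := Complex.summable_log_one_add_of_summable hfv.neg
  have hne : ∀ v : Sp k, 1 + -f v.asIdeal ≠ 0 := fun v h => by
    have : f v.asIdeal = 1 := by linear_combination -h
    have h2 := hv v
    rw [this, norm_one] at h2
    norm_num at h2
  have hp := Complex.hasProd_of_hasSum_log hne hl.hasSum
  have key : (∑' I, f I) * Complex.exp (∑' v : Sp k, Complex.log (1 + -f v.asIdeal)) = 1 :=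
    tendsto_nhds_unique ((Tendsto.const_mul _ hp).congr fun S => (prod S).symm) lim
  refine ⟨left_ne_zero_of_mul_eq_one key, ?_⟩
  have e : Real.log ‖∑' I, f I‖ = -(∑' v : Sp k, Complex.log (1 + -f v.asIdeal)).re := by
    have := congrArg (fun z => Real.log ‖z‖) key
    simp only [norm_mul, Complex.norm_exp, norm_one, Real.log_one] at this
    rw [Real.log_mul (norm_ne_zero_iff.2 (left_ne_zero_of_mul_eq_one key)) (Real.exp_ne_zero _),
      Real.log_exp] at this
    linarith
  have hb : ∀ v : Sp k, ‖Complex.log (1 + -f v.asIdeal) + f v.asIdeal‖ ≤ ‖f v.asIdeal‖ ^ 2 := by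
    intro v
    have h2 := hv v
    have h3 := Complex.norm_log_one_add_sub_self_le (z := -f v.asIdeal)
      (by rw [norm_neg]; linarith)
    rw [sub_neg_eq_add, norm_neg] at h3
    refine h3.trans ?_
    have h4 : (1 - ‖f v.asIdeal‖)⁻¹ ≤ 2 := by
      rw [inv_le_comm₀ (by linarith) two_pos]; linarith
    nlinarith [sq_nonneg ‖f v.asIdeal‖]
  have hs2 : Summable fun v : Sp k => ‖f v.asIdeal‖ ^ 2 :=
    Summable.of_nonneg_of_le (fun _ => by positivity)
      (fun v => by nlinarith [hv v, norm_nonneg (f v.asIdeal)]) hsv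
  rw [e, ← neg_add', abs_neg, ← Complex.add_re, ← hl.tsum_add hfv]
  exact (Complex.abs_re_le_norm _).trans (tsum_of_norm_bounded hs2.hasSum hb)

/-- the Euler product of a twisted zeta function -/
theorem euler_tw (ω : Ideal (𝓞 k) → ℂ) (h1 : ω ⊤ = 1) (hm : ∀ I J, ω (I * J) = ω I * ω J)
    (hn : ∀ I, ‖ω I‖ ≤ 1) {s : ℝ} (hs : 1 < s) :
    ∑' I, ω I * (nz I s : ℂ) ≠ 0 ∧
      |Real.log ‖∑' I, ω I * (nz I s : ℂ)‖ - (∑' v : Sp k, ω v.asIdeal * (nz v.asIdeal s : ℂ)).re| ≤
      ∑' v : Sp k, nz v.asIdeal 2 := by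
  have hb : ∀ I, ‖ω I * (nz I s : ℂ)‖ ≤ nz I s := fun I => by
    rw [norm_mul, Complex.norm_real, Real.norm_of_nonneg (nz_nonneg _ _)]
    exact mul_le_of_le_one_left (nz_nonneg _ _) (hn I)
  have := euler (fun I => ω I * (nz I s : ℂ)) (by simp [h1, nz_top]) (by simp [nz_bot hs])
    (fun I J => by simp only [hm, nz_mul]; push_cast; ring)
    (Summable.of_nonneg_of_le (fun _ => norm_nonneg _) hb (zeta_sum hs).1)
    fun v => (hb _).trans (nz_le_half v hs)
  refine ⟨this.1, this.2.trans ?_⟩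
  have h2 : Summable fun v : Sp k => nz v.asIdeal 2 :=
    (zeta_sum (k := k) one_lt_two).1.comp_injective asIdeal_inj
  have h3 : ∀ v : Sp k, ‖ω v.asIdeal * (nz v.asIdeal s : ℂ)‖ ^ 2 ≤ nz v.asIdeal 2 := fun v =>
    (pow_le_pow_left₀ (norm_nonneg _) (hb _) 2).trans (nz_sq_le v hs)
  exact (Summable.of_nonneg_of_le (fun _ => by positivity) h3 h2).tsum_le_tsum h3 h2

theorem rowZ : RowZ := by
  intro k _ _
  refine ⟨fun s hs => (zeta_sum hs).1, zeta_le.imp fun C h => h.2, ?_⟩
  have hρ := dedekindZeta_residue_pos k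
  have h1 := (zeta_tendsto (k := k)).log hρ.ne'
  refine ⟨∑' v : Sp k, nz v.asIdeal 2 + (|Real.log (dedekindZeta_residue k)| + 1), ?_⟩
  filter_upwards [self_mem_nhdsWithin, h1.abs.eventually_le_const (lt_add_one _)] with s hs hl
  obtain ⟨h2, h3⟩ := euler_tw (k := k) (fun _ => 1) rfl (fun _ _ => by simp) (fun _ => by simp) hs
  simp only [one_mul, ← Complex.ofReal_tsum, Complex.ofReal_re, Complex.norm_real,
    Real.norm_eq_abs, Real.log_abs, ne_eq, Complex.ofReal_eq_zero] at h2 h3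
  have hs' : (s : ℝ) - 1 ≠ 0 := sub_ne_zero.2 (ne_of_gt hs)
  rw [Real.log_mul hs' h2] at hl
  rw [one_div, Real.log_inv]
  rw [abs_le] at h3 hl ⊢
  constructor <;> linarith [h3.1, h3.2, hl.1, hl.2]

end Pool.Agent.MP_db5b97_nt.H72
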