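import Pool.Agent.MP_db5b97_nt.H72.Z

/-! Ray class L-series are bounded near `1`. -/

namespace Pool.Agent.MP_db5b97_nt.H72

open NumberField IsDedekindDomain Filter Topology H85

variable {k : Type} [Field k] [NumberField k]

/-! ### Sums over residue classes -/

/-- periodic functions -/
def Per (Q : 𝓞 k) (g : 𝓞 k → ℂ) : Prop := ∀ a b, g (a + Q * b) = g a

/-- the sum over all residue classes -/
noncomputable def av (Q : 𝓞 k) (g : 𝓞 k → ℂ) : ℂ := ∑ᶠ x : 𝓞 k ⧸ Ideal.span {Q}, g x.out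

omit [NumberField k] in
theorem Per.out {Q : 𝓞 k} {g : 𝓞 k → ℂ} (h : Per Q g) (a : 𝓞 k) :
    g (Ideal.Quotient.mk (Ideal.span {Q}) a).out = g a := by
  have : (Ideal.Quotient.mk (Ideal.span {Q}) a).out - a ∈ Ideal.span {Q} :=
    Ideal.Quotient.eq.1 (Ideal.Quotient.mk_out _)
  obtain ⟨b, hb⟩ := Ideal.mem_span_singleton.1 this
  rw [← h a b, ← hb, add_sub_cancel]

omit [NumberField k] in
theorem Per.affine {Q : 𝓞 k} {g : 𝓞 k → ℂ} (h : Per Q g) {u : 𝓞 k} (hu : IsCoprime u Q)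
    (e : 𝓞 k) : av Q (fun a => g (u * a + e)) = av Q g := by
  have hU : IsUnit (Ideal.Quotient.mk (Ideal.span {Q}) u) := by
    obtain ⟨a, b, hab⟩ := hu
    refine IsUnit.of_mul_eq_one (Ideal.Quotient.mk _ a) ?_
    rw [← map_mul, ← map_one (Ideal.Quotient.mk (Ideal.span {Q})), Ideal.Quotient.eq]
    exact Ideal.mem_span_singleton.2 ⟨-b, by linear_combination hab⟩
  let E := hU.unit.mulLeft.trans (Equiv.addRight (Ideal.Quotient.mk (Ideal.span {Q}) e))
  rw [av, av]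
  refine Eq.trans (finsum_congr fun x => ?_) (finsum_comp_equiv E)
  have : E x = Ideal.Quotient.mk (Ideal.span {Q}) (u * x.out + e) := by
    simp [E, Ideal.Quotient.mk_out]
  rw [this, h.out]

theorem fin_quot {c : Ideal (𝓞 k)} (hc : c ≠ ⊥) : Finite (𝓞 k ⧸ c) :=
  Ideal.finiteQuotientOfFreeOfNeBot c hc

open Classical in
theorem av_shift {q Q : 𝓞 k} {g : 𝓞 k → ℂ} (h : Per q g) (hq : q ∣ Q) (hQ : Q ≠ 0)
    {c : Ideal (𝓞 k)} (hc : Q ∈ c) (hcq : IsCoprime c (Ideal.span {q})) :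
    av Q g = Ideal.absNorm c * av Q fun a => if a ∈ c then g a else 0 := by
  have := fin_quot (c := Ideal.span {Q}) (by simpa using hQ)
  have := fin_quot (c := c) fun h0 => hQ (by simpa [h0] using hc)
  have := Fintype.ofFinite (𝓞 k ⧸ c)
  have := Fintype.ofFinite (𝓞 k ⧸ Ideal.span {Q})
  have h1 : ∀ t : 𝓞 k ⧸ c, av Q (fun a => if Ideal.Quotient.mk c a = t then g a else 0) =
      av Q fun a => if a ∈ c then g a else 0 := by
    intro t
    obtain ⟨t, rfl⟩ := Ideal.Quotient.mk_surjective t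
    have ht : t ∈ c ⊔ Ideal.span {q} := by
      rw [Ideal.isCoprime_iff_sup_eq.1 hcq]; trivial
    obtain ⟨y, hy, z, hz, rfl⟩ := Submodule.mem_sup.1 ht
    obtain ⟨b, rfl⟩ := Ideal.mem_span_singleton.1 hz
    have hp : Per Q fun a => if Ideal.Quotient.mk c a = Ideal.Quotient.mk c (y + q * b)
        then g a else 0 := by
      intro a b'
      obtain ⟨r, rfl⟩ := hq
      have e : Ideal.Quotient.mk c (a + q * r * b') = Ideal.Quotient.mk c a :=
        Ideal.Quotient.eq.2 (by simpa using c.mul_mem_right b' hc)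
      simp only [e]
      rw [mul_assoc, h a]
    rw [← hp.affine isCoprime_one_left (q * b)]
    congr 1
    funext a
    rw [one_mul, h a b]
    refine if_congr ?_ rfl rfl
    rw [Ideal.Quotient.eq, show a + q * b - (y + q * b) = a - y by ring]
    exact ⟨fun h' => by simpa using c.add_mem h' hy, fun h' => c.sub_mem h' hy⟩
  rw [Ideal.absNorm_apply, Submodule.cardQuot_apply, Nat.card_eq_fintype_card, ← nsmul_eq_mul,
    ← Finset.card_univ, ← Finset.sum_const, ← Finset.sum_congr rfl fun t _ => h1 t]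
  simp only [av, finsum_eq_sum_of_fintype]
  rw [Finset.sum_comm]
  simp

open Classical in
/-- indicator of the principal ideals -/
noncomputable def pr (I : Ideal (𝓞 k)) : ℂ := if I.IsPrincipal then 1 else 0

omit [NumberField k] in
theorem pr_span (a : 𝓞 k) : pr (Ideal.span {a}) = 1 := if_pos ⟨a, rfl⟩

omit [NumberField k] in
theorem norm_pr (I : Ideal (𝓞 k)) : ‖pr I‖ ≤ 1 := by
  rw [pr]; split_ifs <;> simp

theorem al (hAL : RowAL) (Q : ℕ) (hQ : 0 < Q) (θ : Ideal (𝓞 k) → ℂ)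
    (hp : Per (Q : 𝓞 k) fun a => θ (Ideal.span {a}))
    (h0 : av (Q : 𝓞 k) (fun a => θ (Ideal.span {a})) = 0) :
    ∃ C : ℝ, ∀ s : ℝ, 1 < s → s < 2 → ‖∑' I : Ideal (𝓞 k), pr I * θ I * (nz I s : ℂ)‖ ≤ C := by
  classical
  have := fin_quot (c := Ideal.span {(Q : 𝓞 k)}) (by simpa using hQ.ne')
  have := Fintype.ofFinite (𝓞 k ⧸ Ideal.span {(Q : 𝓞 k)})
  refine hAL k Q (fun I => pr I * θ I)
    (Finset.univ.image fun x : 𝓞 k ⧸ Ideal.span {(Q : 𝓞 k)} => x.out) hQ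
    (fun s hs => (zeta_sum hs).1) (fun I hI => by simp [pr, hI])
    (fun a b => by simp only [pr_span, hp a b]) (fun a => ?_) ?_
  · refine ⟨(Ideal.Quotient.mk _ a).out, ⟨Finset.mem_image_of_mem _ (Finset.mem_univ _), ?_⟩, ?_⟩
    · exact Ideal.mem_span_singleton.1 (Ideal.Quotient.eq.1 (Ideal.Quotient.mk_out _).symm)
    · rintro r ⟨hr, hr'⟩
      obtain ⟨x, -, rfl⟩ := Finset.mem_image.1 hr
      rw [Ideal.Quotient.eq.2 (Ideal.mem_span_singleton.2 hr'), Ideal.Quotient.mk_out]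
  · rw [Finset.sum_image (by exact fun x _ y _ h => Quotient.out_injective h)]
    simpa only [av, finsum_eq_sum_of_fintype, pr_span, one_mul] using h0

/-! ### Ideal classes -/

open Classical in
/-- the class of an ideal -/
noncomputable def cl (I : Ideal (𝓞 k)) : ClassGroup (𝓞 k) :=
  if h : I = ⊥ then 1 else ClassGroup.mk0 ⟨I, mem_nonZeroDivisors_of_ne_zero h⟩

theorem cl_mul {I J : Ideal (𝓞 k)} (hI : I ≠ ⊥) (hJ : J ≠ ⊥) : cl (I * J) = cl I * cl J := by
  rw [cl, cl, cl, dif_neg hI, dif_neg hJ, dif_neg (show I * J ≠ ⊥ from mul_ne_zero hI hJ),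
    ← map_mul]
  rfl

theorem cl_eq_one {I : Ideal (𝓞 k)} (hI : I ≠ ⊥) : cl I = 1 ↔ I.IsPrincipal := by
  rw [cl, dif_neg hI, ClassGroup.mk0_eq_one_iff]

theorem ne_bot_of_cop {l : ℕ} (hl : 2 ≤ l) {I : Ideal (𝓞 k)}
    (h : IsCoprime I (Ideal.span {(l : 𝓞 k)})) : I ≠ ⊥ := by
  rintro rfl
  have h1 := congrArg Ideal.absNorm (Ideal.isCoprime_iff_sup_eq.1 h)
  rw [bot_sup_eq, Ideal.absNorm_span_natCast, Ideal.absNorm_top, pow_eq_one_iff] at h1
  rcases h1 with h1 | h1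
  · omega
  · exact Module.finrank_pos.ne' h1

theorem exists_rep {l : ℕ} (hl : 2 ≤ l) (C : ClassGroup (𝓞 k)) :
    ∃ c : Ideal (𝓞 k), IsCoprime c (Ideal.span {(l : 𝓞 k)}) ∧ cl c = C := by
  obtain ⟨⟨J, hJ⟩, hC⟩ := ClassGroup.mk0_surjective C⁻¹
  have hJ0 : J ≠ ⊥ := nonZeroDivisors.ne_zero hJ
  have hl0 : Ideal.span {(l : 𝓞 k)} ≠ ⊥ := by simpa using (by omega : l ≠ 0)
  obtain ⟨a, ha⟩ := IsDedekindDomain.exists_sup_span_eq
    (Ideal.mul_le_left : J * Ideal.span {(l : 𝓞 k)} ≤ J) (mul_ne_zero hJ0 hl0)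
  obtain ⟨c, hc⟩ := Ideal.dvd_iff_le.2 (le_sup_right.trans ha.le)
  have h1 : IsCoprime c (Ideal.span {(l : 𝓞 k)}) := by
    rw [Ideal.isCoprime_iff_sup_eq, sup_comm]
    refine mul_left_cancel₀ hJ0 ?_
    rw [Ideal.mul_sup, ← hc, ha, Ideal.mul_top]
  refine ⟨c, h1, ?_⟩
  have h2 := ne_bot_of_cop hl h1
  have h3 : cl (J * c) = 1 := (cl_eq_one (mul_ne_zero hJ0 h2)).2 (hc ▸ ⟨a, rfl⟩)
  rw [cl_mul hJ0 h2, cl, dif_neg hJ0, hC] at h3
  exact (inv_mul_eq_one.1 h3).symm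

/-! ### Boundedness -/

theorem tw_bound (g : Ideal (𝓞 k) → ℂ) (hg : ∀ I, ‖g I‖ ≤ 1) (I : Ideal (𝓞 k)) (s : ℝ) :
    ‖g I * (nz I s : ℂ)‖ ≤ nz I s := by
  rw [norm_mul, Complex.norm_real, Real.norm_of_nonneg (nz_nonneg _ _)]
  exact mul_le_of_le_one_left (nz_nonneg _ _) (hg I)

theorem tw_summable (g : Ideal (𝓞 k) → ℂ) (hg : ∀ I, ‖g I‖ ≤ 1) {s : ℝ} (hs : 1 < s) :
    Summable fun I => g I * (nz I s : ℂ) :=
  (zeta_sum hs).1.of_norm_bounded fun I => tw_bound g hg I s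

theorem tw_le (g : Ideal (𝓞 k) → ℂ) (hg : ∀ I, ‖g I‖ ≤ 1) {s : ℝ} (hs : 1 < s) :
    ‖∑' I, g I * (nz I s : ℂ)‖ ≤ ∑' I : Ideal (𝓞 k), nz I s :=
  tsum_of_norm_bounded (zeta_sum hs).1.hasSum fun I => tw_bound g hg I s

theorem rpow_sub_le {N s : ℝ} (hN : 1 ≤ N) (hs : 1 < s) (hs2 : s < 2) :
    |N ^ s - N| ≤ N * N * (s - 1) := by
  have h1 : N ^ s = N * N ^ (s - 1) := by
    rw [Real.rpow_sub (by linarith), Real.rpow_one, mul_div_cancel₀ _ (by linarith)]
  have h2 := rpow_one_add_le_one_add_mul_self (s := N - 1) (p := s - 1) (by linarith)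
    (by linarith) (by linarith)
  have h3 : 1 ≤ N ^ (s - 1) := Real.one_le_rpow hN (by linarith)
  rw [add_sub_cancel] at h2
  rw [h1, abs_of_nonneg (by nlinarith)]
  nlinarith [mul_le_mul_of_nonneg_left h2 (show 0 ≤ N by linarith)]

/-- characters of a ray class group -/
structure RC (l M : ℕ) (ω : Ideal (𝓞 k) → ℂ) : Prop where
  one : ω ⊤ = 1
  mul : ∀ I J, ω (I * J) = ω I * ω J
  cop : ∀ I, IsCoprime I (Ideal.span {(l : 𝓞 k)}) → ‖ω I‖ = 1
  ncop : ∀ I, ¬ IsCoprime I (Ideal.span {(l : 𝓞 k)}) → ω I = 0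
  per : Per ((l : 𝓞 k) ^ (M + 1)) fun a => ω (Ideal.span {a})

omit [NumberField k] in
theorem RC.norm_le {l M : ℕ} {ω : Ideal (𝓞 k) → ℂ} (h : RC l M ω) (I : Ideal (𝓞 k)) :
    ‖ω I‖ ≤ 1 := by
  by_cases hI : IsCoprime I (Ideal.span {(l : 𝓞 k)})
  · exact (h.cop I hI).le
  · simp [h.ncop I hI]

/-- the part of the series over one ideal class -/
theorem RC.cls {l M : ℕ} {ω : Ideal (𝓞 k) → ℂ} (h : RC l M ω) (hAL : RowAL) (hl : 2 ≤ l)
    {c : Ideal (𝓞 k)} (hc : IsCoprime c (Ideal.span {(l : 𝓞 k)})) :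
    ∃ C : ℝ, ∀ᶠ s in 𝓝[>] (1 : ℝ), ‖∑' I, pr (c * I) * ω I * (nz I s : ℂ) -
      (ω c)⁻¹ * ∑' I, pr I * ω I * (nz I s : ℂ)‖ ≤ C := by
  classical
  have hc0 := ne_bot_of_cop hl hc
  have hN : 0 < Ideal.absNorm c := Nat.pos_of_ne_zero (by simpa [Ideal.absNorm_eq_zero_iff])
  have hQc : ((l ^ (M + 1) * Ideal.absNorm c : ℕ) : 𝓞 k) ∈ c := by
    push_cast
    exact c.mul_mem_left _ (Ideal.absNorm_mem c)
  have hq : (l : 𝓞 k) ^ (M + 1) ∣ ((l ^ (M + 1) * Ideal.absNorm c : ℕ) : 𝓞 k) := by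
    push_cast
    exact dvd_mul_right _ _
  have hQ : 0 < l ^ (M + 1) * Ideal.absNorm c := by positivity
  have hd : ∀ a : 𝓞 k, c ∣ Ideal.span {a} ↔ a ∈ c := fun a => by
    rw [Ideal.dvd_iff_le, Ideal.span_singleton_le_iff_mem]
  have hal := al hAL _ hQ
    (fun I => (Ideal.absNorm c : ℂ) * (if c ∣ I then ω I else 0) - ω I) (fun a b => ?_) ?_
  rotate_left
  · obtain ⟨r, hr⟩ := hq
    have e1 : a + ((l ^ (M + 1) * Ideal.absNorm c : ℕ) : 𝓞 k) * b ∈ c ↔ a ∈ c :=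
      c.add_mem_iff_left (c.mul_mem_right b hQc)
    have e2 := h.per a (r * b)
    rw [← mul_assoc, ← hr] at e2
    simp only [hd, e1, e2]
  · have := fin_quot (c := Ideal.span {((l ^ (M + 1) * Ideal.absNorm c : ℕ) : 𝓞 k)})
      (by simpa only [ne_eq, Ideal.span_singleton_eq_bot, Nat.cast_eq_zero] using hQ.ne')
    have := Fintype.ofFinite (𝓞 k ⧸ Ideal.span {((l ^ (M + 1) * Ideal.absNorm c : ℕ) : 𝓞 k)})
    have e := av_shift h.per hq (Nat.cast_ne_zero.2 hQ.ne') hQc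
      (by rw [← Ideal.span_singleton_pow]; exact hc.pow_right)
    simp only [av, finsum_eq_sum_of_fintype] at e ⊢
    simp only [Finset.sum_sub_distrib, ← Finset.mul_sum, hd, e, sub_self]
  obtain ⟨C1, hC1⟩ := hal
  obtain ⟨C0, hC0, hz⟩ := zeta_le (k := k)
  refine ⟨Ideal.absNorm c * Ideal.absNorm c * C0 + C1, ?_⟩
  filter_upwards [hz, Ioo_mem_nhdsGT one_lt_two] with s hz hs
  have hg : ∀ I, ‖pr I * if c ∣ I then ω I else 0‖ ≤ 1 := fun I => by
    rw [norm_mul]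
    refine mul_le_one₀ (norm_pr I) (norm_nonneg _) ?_
    split_ifs
    · exact h.norm_le I
    · simp
  have hg' : ∀ I, ‖pr I * ω I‖ ≤ 1 := fun I => by
    rw [norm_mul]
    exact mul_le_one₀ (norm_pr I) (norm_nonneg _) (h.norm_le I)
  set S := ∑' I, (pr I * if c ∣ I then ω I else 0) * (nz I s : ℂ) with hS
  set P := ∑' I, pr I * ω I * (nz I s : ℂ) with hP
  set A := ∑' I, pr (c * I) * ω I * (nz I s : ℂ) with hA
  have e1 : S = ω c * nz c s * A := by
    rw [hA, ← tsum_mul_left, hS]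
    have := tsum_dvd hc0 fun I => pr I * ω I * (nz I s : ℂ)
    refine Eq.trans (tsum_congr fun I => ?_) (this.trans (tsum_congr fun I => ?_))
    · split_ifs <;> simp
    · rw [h.mul, nz_mul]; push_cast; ring
  have e2 : ‖(Ideal.absNorm c : ℂ) * S - P‖ ≤ C1 := by
    convert hC1 s hs.1 hs.2 using 2
    rw [hS, hP, ← tsum_mul_left, ← ((tw_summable _ hg hs.1).mul_left _).tsum_sub
      (tw_summable _ hg' hs.1)]
    exact tsum_congr fun I => by ring
  have hω : ω c ≠ 0 := norm_ne_zero_iff.1 (by rw [h.cop c hc]; exact one_ne_zero)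
  have hN' : (1 : ℝ) ≤ Ideal.absNorm c := by exact_mod_cast hN
  have e3 : ((((Ideal.absNorm c : ℝ) ^ s : ℝ)) : ℂ) * nz c s = 1 := by
    rw [← Complex.ofReal_mul, nz, ← Real.rpow_add (by linarith)]
    simp
  have e4 : A - (ω c)⁻¹ * P = (ω c)⁻¹ * ((((Ideal.absNorm c : ℝ) ^ s - Ideal.absNorm c : ℝ) : ℂ) * S
      + ((Ideal.absNorm c : ℂ) * S - P)) := by
    rw [e1]
    push_cast
    field_simp
    linear_combination (-A * ω c) * e3
  rw [e4, norm_mul, norm_inv, h.cop c hc, inv_one, one_mul]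
  refine (norm_add_le _ _).trans (add_le_add ?_ e2)
  rw [norm_mul, Complex.norm_real, Real.norm_eq_abs]
  refine (mul_le_mul (rpow_sub_le hN' hs.1 hs.2) (tw_le _ hg hs.1) (norm_nonneg _)
    (by have := hs.1; positivity)).trans ?_
  rw [mul_assoc _ (s - 1)]
  gcongr

theorem RC.bound {l M : ℕ} {ω : Ideal (𝓞 k) → ℂ} (h : RC l M ω) (hAL : RowAL) (hl : 2 ≤ l)
    {A : Ideal (𝓞 k)} (hA : IsCoprime A (Ideal.span {(l : 𝓞 k)})) (hA1 : ω A ≠ 1) :
    ∃ C : ℝ, ∀ᶠ s in 𝓝[>] (1 : ℝ), ‖∑' I, ω I * (nz I s : ℂ)‖ ≤ C := by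
  classical
  choose c hc hcl using exists_rep (k := k) hl
  have hc0 := fun C => ne_bot_of_cop hl (hc C)
  choose K hK using fun C => h.cls hAL hl (hc C)
  have h0 : ω ⊥ = 0 := h.ncop _ fun h' => ne_bot_of_cop hl h' rfl
  have hP : ∃ C : ℝ, ∀ᶠ s in 𝓝[>] (1 : ℝ),
      ‖(∑ C, (ω (c C))⁻¹) * ∑' I, pr I * ω I * (nz I s : ℂ)‖ ≤ C := by
    by_cases hb : ∃ b : 𝓞 k, IsCoprime b l ∧ ω (Ideal.span {b}) ≠ 1
    · obtain ⟨b, hb, hb1⟩ := hb
      have hp : Per ((l ^ (M + 1) : ℕ) : 𝓞 k) fun a => ω (Ideal.span {a}) := by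
        simpa only [Nat.cast_pow] using h.per
      have hal := al hAL (l ^ (M + 1)) (by positivity) ω hp ?_
      · obtain ⟨C, hC⟩ := hal
        refine ⟨‖∑ C, (ω (c C))⁻¹‖ * C, ?_⟩
        filter_upwards [Ioo_mem_nhdsGT one_lt_two] with s hs
        rw [norm_mul]
        exact mul_le_mul_of_nonneg_left (hC s hs.1 hs.2) (norm_nonneg _)
      · have e := hp.affine (u := b) (by push_cast; exact hb.pow_right) 0
        simp only [add_zero, ← Ideal.span_singleton_mul_span_singleton, h.mul, av,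
          ← mul_finsum] at e
        exact (mul_left_eq_self₀.1 e).resolve_left hb1
    · push Not at hb
      have h1 : ∀ I, IsCoprime I (Ideal.span {(l : 𝓞 k)}) → ω I * ω (c (cl I)⁻¹) = 1 := by
        intro I hI
        have hI0 := ne_bot_of_cop hl hI
        obtain ⟨b, hb'⟩ := (cl_eq_one (mul_ne_zero hI0 (hc0 (cl I)⁻¹))).1
          (by rw [cl_mul hI0 (hc0 _), hcl, mul_inv_cancel])
        have h2 := hI.mul_left (hc (cl I)⁻¹)
        rw [← h.mul]
        rw [hb'] at h2 ⊢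
        exact hb b ((Ideal.isCoprime_span_singleton_iff _ _).1 h2)
      have h2 : ∀ C, (ω (c (C * cl A)))⁻¹ = (ω A)⁻¹ * (ω (c C))⁻¹ := by
        intro C
        have e1 := h1 _ (hc (C * cl A))
        have e2 := h1 _ ((hc C).mul_left hA)
        rw [cl_mul (hc0 C) (ne_bot_of_cop hl hA), hcl, h.mul] at e2
        rw [hcl] at e1
        rw [← mul_inv, mul_comm (ω A), inv_eq_of_mul_eq_one_right e1, inv_eq_of_mul_eq_one_right e2]
      have h3 := Equiv.sum_comp (Equiv.mulRight (cl A)) fun C => (ω (c C))⁻¹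
      simp only [Equiv.coe_mulRight, h2, ← Finset.mul_sum] at h3
      refine ⟨0, Eventually.of_forall fun s => ?_⟩
      rw [(mul_left_eq_self₀.1 h3).resolve_left (by simpa using hA1)]
      simp
  obtain ⟨C1, hC1⟩ := hP
  refine ⟨∑ C, K C + C1, ?_⟩
  filter_upwards [hC1, eventually_all.2 hK, self_mem_nhdsWithin] with s h1 h2 hs
  have hg : ∀ C I, ‖pr (c C * I) * ω I‖ ≤ 1 := fun C I => by
    rw [norm_mul]
    exact mul_le_one₀ (norm_pr _) (norm_nonneg _) (h.norm_le I)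
  have e1 : ∑' I, ω I * (nz I s : ℂ) = ∑ C, ∑' I, pr (c C * I) * ω I * (nz I s : ℂ) := by
    rw [← Summable.tsum_finsetSum fun C _ => tw_summable _ (hg C) hs]
    refine tsum_congr fun I => ?_
    by_cases hI : I = ⊥
    · simp [hI, h0]
    · rw [← Finset.sum_mul, ← Finset.sum_mul, Finset.sum_eq_single (cl I)⁻¹]
      · rw [pr, if_pos, one_mul]
        rw [← cl_eq_one (mul_ne_zero (hc0 _) hI), cl_mul (hc0 _) hI, hcl, inv_mul_cancel]
      · intro C _ hC
        rw [pr, if_neg]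
        rwa [← cl_eq_one (mul_ne_zero (hc0 _) hI), cl_mul (hc0 _) hI, hcl, mul_eq_one_iff_eq_inv]
      · simp
  rw [e1, ← sub_add_cancel (∑ C, ∑' I, pr (c C * I) * ω I * (nz I s : ℂ))
    ((∑ C, (ω (c C))⁻¹) * ∑' I, pr I * ω I * (nz I s : ℂ))]
  refine (norm_add_le _ _).trans (add_le_add ?_ h1)
  rw [Finset.sum_mul, ← Finset.sum_sub_distrib]
  exact (norm_sum_le _ _).trans (Finset.sum_le_sum fun C _ => h2 C)

/-! ### The characters -/

open Classical in
/-- the divisor of an ideal -/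
noncomputable def dI (l : ℕ) (I : Ideal (𝓞 k)) : Dv k l :=
  if h : I = ⊥ then 0 else Finsupp.ofSupportFinite
    (fun w => ((Associates.mk w.1.asIdeal).count (Associates.mk I).factors : ℤ))
    ((eventually_cofinite.1 (Associates.finite_factors h)).preimage Subtype.val_injective.injOn)

theorem dI_apply {l : ℕ} {I : Ideal (𝓞 k)} (h : I ≠ ⊥) (w : Pr k l) :
    dI l I w = ((Associates.mk w.1.asIdeal).count (Associates.mk I).factors : ℤ) := by
  rw [dI, dif_neg h]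
  rfl

theorem dI_mul {l : ℕ} {I J : Ideal (𝓞 k)} (hI : I ≠ ⊥) (hJ : J ≠ ⊥) :
    dI l (I * J) = dI l I + dI l J := by
  ext w
  rw [Finsupp.add_apply, dI_apply hI, dI_apply hJ, dI_apply (mul_ne_zero hI hJ),
    ← Associates.mk_mul_mk, Associates.count_mul (Associates.mk_ne_zero.2 hI)
      (Associates.mk_ne_zero.2 hJ) w.1.associates_irreducible, Nat.cast_add]

theorem dI_prime {l : ℕ} (v : Pr k l) : dI l v.1.asIdeal = Finsupp.single v 1 := by
  ext w
  rw [dI_apply v.1.ne_bot]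
  by_cases h : w = v
  · rw [h, Associates.count_self v.1.associates_irreducible]
    simp
  · rw [Associates.count_eq_zero_of_ne w.1.associates_irreducible v.1.associates_irreducible,
      Finsupp.single_eq_of_ne h, Nat.cast_zero]
    exact fun e => h (Subtype.ext (HeightOneSpectrum.ext (Associates.mk_injective e)))

theorem dI_span {l : ℕ} {a : 𝓞 k} (ha : a ≠ 0) :
    dI l (Ideal.span {a}) = dv k l (Un.mk (algebraMap _ k a) (by simpa using ha)) := by
  ext w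
  rw [dI_apply (by simpa using ha), dv_apply]
  change _ = -WithZero.log (w.1.valuation k (algebraMap _ k a))
  erw [HeightOneSpectrum.valuation_of_algebraMap]
  rw [HeightOneSpectrum.intValuation_if_neg _ ha]
  simp

theorem cop_prime {l : ℕ} (v : Sp k) :
    IsCoprime v.asIdeal (Ideal.span {(l : 𝓞 k)}) ↔ (l : 𝓞 k) ∉ v.asIdeal := by
  refine ⟨fun h hl => v.isPrime.ne_top ?_, fun h => ?_⟩
  · rw [← Ideal.isCoprime_iff_sup_eq.1 h, eq_comm, sup_eq_left]
    exact (Ideal.span_singleton_le_iff_mem _).2 hl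
  · rw [Ideal.isCoprime_iff_sup_eq]
    refine v.isMaximal.out.2 _ (left_lt_sup.2 fun h' => h ?_)
    exact (Ideal.span_singleton_le_iff_mem _).1 h'

open Classical in
/-- the character on ideals -/
noncomputable def om (l : ℕ) {B : Type} [AddCommGroup B] (χ : Dv k l →+ B) (ψ : AddChar B ℂ)
    (I : Ideal (𝓞 k)) : ℂ :=
  if IsCoprime I (Ideal.span {(l : 𝓞 k)}) then ψ (χ (dI l I)) else 0

theorem om_pos {l : ℕ} {B : Type} [AddCommGroup B] (χ : Dv k l →+ B) (ψ : AddChar B ℂ)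
    {I : Ideal (𝓞 k)} (h : IsCoprime I (Ideal.span {(l : 𝓞 k)})) :
    om l χ ψ I = ψ (χ (dI l I)) := if_pos h

theorem om_neg {l : ℕ} {B : Type} [AddCommGroup B] (χ : Dv k l →+ B) (ψ : AddChar B ℂ)
    {I : Ideal (𝓞 k)} (h : ¬ IsCoprime I (Ideal.span {(l : 𝓞 k)})) : om l χ ψ I = 0 := if_neg h

theorem om_rc {l M : ℕ} {B : Type} [AddCommGroup B] [Finite B] (χ : Dv k l →+ B) (hl : 2 ≤ l)
    (hχ : ∀ x ∈ Ray k l M, χ (dv k l x) = 0) (ψ : AddChar B ℂ) : RC l M (om l χ ψ) where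
  one := by
    have h1 : dI l (⊤ : Ideal (𝓞 k)) = 0 := by
      have := dI_mul (l := l) (I := (⊤ : Ideal (𝓞 k))) (J := ⊤) top_ne_bot top_ne_bot
      rw [Ideal.mul_top] at this
      exact left_eq_add.1 this
    rw [om, if_pos (by rw [← Ideal.one_eq_top]; exact isCoprime_one_left), h1]
    simp
  mul I J := by
    by_cases hI : IsCoprime I (Ideal.span {(l : 𝓞 k)})
    · by_cases hJ : IsCoprime J (Ideal.span {(l : 𝓞 k)})
      · rw [om_pos χ ψ hI, om_pos χ ψ hJ, om_pos χ ψ (hI.mul_left hJ),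
          dI_mul (ne_bot_of_cop hl hI) (ne_bot_of_cop hl hJ), map_add, ψ.map_add_eq_mul]
      · rw [om_neg χ ψ hJ, om_neg χ ψ fun h => hJ h.of_mul_left_right, mul_zero]
    · rw [om_neg χ ψ hI, om_neg χ ψ fun h => hI h.of_mul_left_left, zero_mul]
  cop I hI := by rw [om, if_pos hI, AddChar.norm_apply]
  ncop I hI := if_neg hI
  per a b := by
    have e : IsCoprime (a + (l : 𝓞 k) ^ (M + 1) * b) l ↔ IsCoprime a l := by
      rw [pow_succ', mul_assoc, IsCoprime.add_mul_left_left_iff]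
    have e' : ∀ x : 𝓞 k, IsCoprime (Ideal.span {x}) (Ideal.span {(l : 𝓞 k)}) ↔ IsCoprime x l :=
      fun x => Ideal.isCoprime_span_singleton_iff _ _
    beta_reduce
    by_cases ha : IsCoprime a l
    · have ha' := e.2 ha
      rw [om_pos χ ψ ((e' _).2 ha), om_pos χ ψ ((e' _).2 ha')]
      have n0 : ∀ {x : 𝓞 k}, IsCoprime x l → x ≠ 0 := fun hx => by
        simpa using ne_bot_of_cop hl ((Ideal.isCoprime_span_singleton_iff _ _).2 hx)
      have v1 : ∀ {x : 𝓞 k}, IsCoprime x l → ∀ w : Sp k, (l : 𝓞 k) ∈ w.asIdeal →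
          w.valuation k (algebraMap _ k x) = 1 := fun ⟨p, q, hx⟩ w hw =>
        w.valuation_eq_one_iff_notMem.2 fun h => w.isPrime.one_notMem
          (hx ▸ w.asIdeal.add_mem (w.asIdeal.mul_mem_left p h) (w.asIdeal.mul_mem_left q hw))
      rw [dI_span (n0 ha), dI_span (n0 ha')]
      congr 1
      rw [← sub_eq_zero, ← map_sub, ← map_sub]
      refine hχ _ ⟨fun w hw => ?_, fun w hw => ?_⟩
      · rw [Un.val_sub, Un.val_mk, Un.val_mk, map_div₀, v1 ha w hw, v1 ha' w hw, div_one]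
      · have h0 : algebraMap (𝓞 k) k a ≠ 0 := by simpa using n0 ha
        rw [Un.val_sub, Un.val_mk, Un.val_mk, div_sub_one h0, map_add, add_sub_cancel_left,
          map_div₀, v1 ha w hw, div_one, pow_succ, mul_assoc, map_mul, map_mul, map_pow, map_pow,
          map_natCast]
        exact mul_le_of_le_one_right' (w.valuation_le_one _)
    · rw [om_neg χ ψ fun h => ha ((e' _).1 h), om_neg χ ψ fun h => ha (e.1 ((e' _).1 h))]

theorem rowRC : RowAL → RowRC := by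
  intro hAL k _ _ l M B _ _ χ hl hsur hχ
  classical
  have := Fintype.ofFinite B
  have hrc := om_rc χ hl hχ
  have hb : ∀ ψ : AddChar B ℂ, ∃ C : ℝ, ∀ᶠ s in 𝓝[>] (1 : ℝ),
      Real.log ‖∑' I, om l χ ψ I * (nz I s : ℂ)‖ ≤
        (if ψ = 0 then Real.log (1 / (s - 1)) else 0) + C := by
    intro ψ
    have hpos : ∀ s : ℝ, 1 < s → 0 < ‖∑' I, om l χ ψ I * (nz I s : ℂ)‖ := fun s hs =>
      norm_pos_iff.2 (euler_tw _ (hrc ψ).one (hrc ψ).mul (hrc ψ).norm_le hs).1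
    by_cases hψ : ψ = 0
    · obtain ⟨C, hC, hz⟩ := zeta_le (k := k)
      refine ⟨Real.log C, ?_⟩
      filter_upwards [hz, self_mem_nhdsWithin] with s h1 hs
      have hs' : 0 < s - 1 := sub_pos.2 hs
      rw [if_pos hψ, ← Real.log_mul (by positivity) hC.ne']
      refine Real.log_le_log (hpos s hs) ((tw_le _ (hrc ψ).norm_le hs).trans ?_)
      rwa [one_div, le_inv_mul_iff₀ hs']
    · have : ∃ v : Pr k l, ψ (χ (Finsupp.single v 1)) ≠ 1 := by
        by_contra hc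
        push Not at hc
        refine hψ (AddChar.ext _ _ fun b => ?_)
        obtain ⟨D, rfl⟩ := hsur b
        induction D using Finsupp.induction_linear with
        | zero => simp
        | add f g hf hg => rw [map_add, ψ.map_add_eq_mul, hf, hg]; simp
        | single v n =>
          rw [show Finsupp.single v n = n • Finsupp.single v (1 : ℤ) by simp, map_zsmul,
            ψ.map_zsmul_eq_zpow, hc]
          simp
      obtain ⟨v, hv⟩ := this
      obtain ⟨C, hC⟩ := (hrc ψ).bound hAL hl ((cop_prime v.1).2 v.2)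
        (by rwa [om_pos χ ψ ((cop_prime v.1).2 v.2), dI_prime])
      refine ⟨Real.log C, ?_⟩
      filter_upwards [hC, self_mem_nhdsWithin] with s h1 hs
      rw [if_neg hψ, zero_add]
      exact Real.log_le_log (hpos s hs) h1
  choose K hK using hb
  refine ⟨∑ ψ, (K ψ + ∑' v : Sp k, nz v.asIdeal 2), ?_⟩
  filter_upwards [eventually_all.2 hK, self_mem_nhdsWithin] with s h1 hs
  have h2 : ∀ ψ : AddChar B ℂ, (∑' v : Sp k, om l χ ψ v.asIdeal * (nz v.asIdeal s : ℂ)).re ≤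
      (if ψ = 0 then Real.log (1 / (s - 1)) else 0) + (K ψ + ∑' v : Sp k, nz v.asIdeal 2) := by
    intro ψ
    have := (abs_le.1 (euler_tw _ (hrc ψ).one (hrc ψ).mul (hrc ψ).norm_le hs).2).1
    linarith [h1 ψ]
  have h3 := Finset.sum_le_sum fun ψ (_ : ψ ∈ Finset.univ) => h2 ψ
  rw [Finset.sum_add_distrib, Finset.sum_ite_eq', if_pos (Finset.mem_univ _),
    ← Complex.re_sum, ← Summable.tsum_finsetSum
      (f := fun ψ (v : Sp k) => om l χ ψ v.asIdeal * (nz v.asIdeal s : ℂ)) fun ψ _ =>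
      (tw_summable _ (hrc ψ).norm_le hs).comp_injective asIdeal_inj] at h3
  refine le_of_eq_of_le ?_ h3
  have hi : Function.Injective fun v : {v : Pr k l // χ (Finsupp.single v 1) = 0} => v.1.1 :=
    fun _ _ e => Subtype.ext (Subtype.ext e)
  have h4 : ∀ v : Pr k l, ∑ ψ : AddChar B ℂ, om l χ ψ v.1.asIdeal =
      if χ (Finsupp.single v 1) = 0 then (Fintype.card B : ℂ) else 0 := fun v => by
    simp only [om_pos χ _ ((cop_prime v.1).2 v.2), dI_prime, AddChar.sum_apply_eq_ite]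
  simp only [← Finset.sum_mul]
  rw [← hi.tsum_eq]
  · have h5 : ∀ v : {v : Pr k l // χ (Finsupp.single v 1) = 0},
        (∑ ψ : AddChar B ℂ, om l χ ψ v.1.1.asIdeal) * (nz v.1.1.asIdeal s : ℂ) =
        (Fintype.card B : ℂ) * (nz v.1.1.asIdeal s : ℂ) := fun v => by rw [h4, if_pos v.2]
    rw [tsum_congr h5, tsum_mul_left, ← Complex.ofReal_tsum, Nat.card_eq_fintype_card]
    simp
  · intro v hv
    by_cases hl' : (l : 𝓞 k) ∈ v.asIdeal
    · simp [om_neg χ _ fun h => (cop_prime v).1 h hl'] at hv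
    · by_cases h0 : χ (Finsupp.single (⟨v, hl'⟩ : Pr k l) 1) = 0
      · exact ⟨⟨⟨v, hl'⟩, h0⟩, rfl⟩
      · have := h4 ⟨v, hl'⟩
        rw [if_neg h0] at this
        simp [this] at hv

end Pool.Agent.MP_db5b97_nt.H72
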