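import Pool.Agent.MP_db5b97_nt.H31.SpecT
import Pool.Agent.MP_db5b97_nt.H21.NT2

/-! The first half of the sharp index bound: local invariants of a class. -/

namespace Pool.Agent.MP_db5b97_nt.H72

open H85 H31 NumberField IsDedekindDomain

section Alg

variable {G A : Type} [Group G] [AddCommGroup A] [DistribMulAction G A]

theorem Nm_succ (σ : G) (n : ℕ) (x : A) : Nm σ (n + 1) x = Nm σ n x + σ ^ n • x := by
  rw [Nm_apply, Nm_apply, Finset.sum_range_succ]

theorem Nm_Df (σ : G) (n : ℕ) (x : A) : Nm σ n (Df σ x) = σ ^ n • x - x := by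
  induction n with
  | zero => simp [Nm_apply]
  | succ n ih => rw [Nm_succ, ih, Df_apply, smul_sub, ← mul_smul, ← pow_succ]; abel

theorem smul_Nm (σ : G) (n : ℕ) (x : A) (h : σ ^ n • x = x) : σ • Nm σ n x = Nm σ n x := by
  have h1 : Nm σ (n + 1) x = σ • Nm σ n x + x := by
    rw [Nm_apply, Nm_apply, Finset.sum_range_succ', Finset.smul_sum]
    simp [pow_succ', mul_smul]
  have h2 := Nm_succ σ n x
  rw [h, h1] at h2
  exact add_right_cancel h2

theorem Nm_add (σ : G) (n m : ℕ) (x : A) (h : σ ^ n • x = x) :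
    Nm σ (n + m) x = Nm σ n x + Nm σ m x := by
  rw [Nm_apply, Nm_apply, Nm_apply, Finset.sum_range_add]
  congr 1
  refine Finset.sum_congr rfl fun i _ => ?_
  rw [add_comm, pow_add, mul_smul, h]

theorem Nm_mul (σ : G) (a n : ℕ) (x : A) (h : σ ^ n • x = x) :
    Nm σ (a * n) x = a • Nm σ n x := by
  induction a with
  | zero => simp [Nm_apply]
  | succ a ih => rw [Nat.succ_mul, add_comm, Nm_add σ n _ x h, ih, succ_nsmul']

theorem fix_of_gen (σ : G) (hg : ∀ s : G, s ∈ Subgroup.zpowers σ) (x : A) (h : σ • x = x)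
    (s : G) : s • x = x :=
  (Subgroup.zpowers_le.2 (show σ ∈ MulAction.stabilizer G x from h)) (hg s)

theorem tr_post [Fintype G] {M B : Type} [AddCommGroup M] [DistribMulAction G M] [AddCommGroup B]
    [DistribMulAction G B] (φ : A →+ B) (hφ : ∀ (g : G) x, φ (g • x) = g • φ x) (f : Hm M A) :
    tr G (Hm.post φ f) = Hm.post φ (tr G f) := by
  ext m
  simp only [tr_apply, Hm.sum_apply, Hm.smul_apply, Hm.post_apply, map_sum, hφ]

end Alg

theorem absNorm_smul {F G : Type} [Field F] [NumberField F] [Group G] [MulSemiringAction G F]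
    (g : G) (w : Sp F) : Ideal.absNorm (g • w).asIdeal = Ideal.absNorm w.asIdeal := by
  rw [Ideal.absNorm_apply, Ideal.absNorm_apply, Submodule.cardQuot_apply,
    Submodule.cardQuot_apply]
  exact (Nat.card_congr (Ideal.quotientEquiv w.asIdeal (g • w).asIdeal
    (MulSemiringAction.toRingEquiv G (𝓞 F) g) rfl).toEquiv).symm

theorem psi_smul {p q R g0 : ℕ} {k G : Type} [Field k] [NumberField k] [Group G]
    [MulSemiringAction G k] {ψ : Pr k q → ℕ} (hψ : IsPsi p R g0 ψ)
    (og : orderOf (g0 : ZMod q) = p ^ R) (g : G) (w : Pr k q) : ψ (g • w) = ψ w := by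
  refine pow_injOn_Iio_orderOf (x := (g0 : ZMod q)) ?_ ?_ ?_
  · rw [og]; exact (hψ _).1
  · rw [og]; exact (hψ _).1
  · show (g0 : ZMod q) ^ ψ (g • w) = (g0 : ZMod q) ^ ψ w
    rw [← (hψ _).2, ← (hψ _).2]
    exact congrArg _ (absNorm_smul g w.1)

theorem dv_smul {F G : Type} [Field F] [NumberField F] [Group G] [MulSemiringAction G F] (l : ℕ)
    (s : G) (x : Un F) : dv F l (s • x) = s • dv F l x := by
  ext w
  rw [Finsupp.comapSMul_apply, dv_apply, dv_apply, ← NT2.ord_smul F G s (s⁻¹ • w).1 x]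
  congr 1
  exact congrArg _ (smul_inv_smul s w.1).symm

theorem rowPART1 : RowU1 → RowFR → RowHA1 → RowKILL → RowADJ → RowPRE → RowPART1 := by
  intro hU hFR hHA hK hA hP p q R g0 l i0 r h k G E Λ M _ _ _ _ _ _ _ _ _ _ _ lam ζ _ _ _ _ ψ c
    fr lh free hψ card cop le hc hl
  have gal := fr.gal
  obtain ⟨t, s, ht, hs, hb, hd⟩ :=
    hK p q R g0 l i0 r h k G E Λ M lam ζ c fr lh card cop (by omega) hc hl
  set j := i0 + 2 * r with hj
  have hN : ∀ (n : ℕ) (g : G) (x : Un E), Nm lam n (g • x) = g • Nm lam n x := by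
    intro n g x
    rw [Nm_apply, Nm_apply, Finset.smul_sum]
    exact Finset.sum_congr rfl fun i _ => Un.ext (fr.comm g _ x.val).symm
  have hi : ∀ (g : G) (x : Un k), Un.inc k E (g • x) = g • Un.inc k E x :=
    fun g x => Un.ext (fr.eqv g x.val)
  have h0 : Hm.post (Nm lam (p ^ j)) (tr G s) = 0 := by
    rw [← hd]
    ext1 m
    rw [Hm.post_apply, Hm.post_apply, Nm_Df, ht, sub_self, Hm.zero_apply]
  obtain ⟨s', hs', htr, hu⟩ := hA p q R g0 (p ^ j) k G E Λ M lam ζ s fr free hs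
    (by rw [tr_post _ (hN _), h0])
  have hex : ∀ m, ∃ x, Un.inc k E x = Nm lam (p ^ j) (s' m) := fun m =>
    (NT2.inc_range k E Λ _).2 (fix_of_gen lam fr.gen _ (smul_Nm lam _ _ (hs' m)))
  choose a0 ha0 using hex
  let a : Hm M (Un k) := Hm.of (AddMonoidHom.mk' a0 fun x y => inc_inj k E (by
    rw [map_add, ha0, ha0, ha0, map_add, map_add]))
  have ha : ∀ m, Un.inc k E (a m) = Nm lam (p ^ j) (s' m) := ha0
  have ha' : Hm.post (Un.inc k E) a = Hm.post (Nm lam (p ^ j)) s' := Hm.ext ha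
  have hta : tr G a = 0 := by
    have : Hm.post (Un.inc k E) (tr G a) = 0 := by
      rw [← tr_post _ hi, ha', tr_post _ (hN _), htr, h0]
    ext1 m
    exact inc_inj k E (by rw [Hm.zero_apply, map_zero]; exact DFunLike.congr_fun this m)
  have hau : ∀ m, a m ∈ U1 k q := fun m => (hU.inc' k E q _).1 (ha m ▸ hu m)
  have hp : p ≠ 0 := fr.pp.ne_zero
  obtain ⟨S, θ, h1, h2, h3, h4, h5, h6⟩ := hP p R j r h G (Pr k q) M ψ (Hm.post (dv k q) a) hp card
    (by omega) (psi_smul hψ fr.og) (by rw [tr_post _ (dv_smul q), hta, map_zero])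
    (fun m w => ((hFR p q R g0 k E Λ lam ζ fr.toCy).2.2 ψ hψ).2.2.2.2 j (by omega) (a m) (s' m)
      (hs' m) (ha m) w)
    (fun m => hHA p q R g0 k ψ fr.qp fr.im fr.og hp hψ _ (hau m))
  refine ⟨S, h * h, h • t, h • s', (h * p ^ (R - j - r)) • a, θ, cop.mul_left cop, fun g => ?_,
    ?_, ?_, fun m => ?_, ?_, h1, h2, h3, h4, h5, fun m w => ?_⟩
  · rw [mul_nsmul, hb, nsmul_sub, smul_comm g h t]
  · rw [map_nsmul, map_nsmul, hd, htr]
  · ext1 m
    have e : p ^ R = p ^ (R - j) * p ^ j := by rw [← pow_add]; congr 1; omega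
    have e' : p ^ (R - j) = p ^ r * p ^ (R - j - r) := by rw [← pow_add]; congr 1; omega
    simp only [Hm.post_apply, Hm.nsmul_apply, map_nsmul, ha]
    rw [e, Nm_mul lam _ _ _ (hs' m), smul_smul, smul_smul, e']
    congr 1
    ring
  · exact nsmul_mem (hau m) _
  · rw [map_nsmul, hta, smul_zero]
  · have := h6 m w
    rwa [Hm.nsmul_apply, map_nsmul, nsmul_eq_mul]

end Pool.Agent.MP_db5b97_nt.H72
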